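import Pool.Agent.X171.ED.LpI

/-!
# Parts for: `L_1[0,1]` does not have the equivariant dual lifting property (MP_32ff52_an)
-/

open MeasureTheory Set
open scoped ENNReal

namespace Pool.Agent.X171.EL

open Pool.Agent.X171.ED Pool.Agent.X171.LS

/-- Coin tosses. -/
abbrev Om : Type := ℕ → Bool

/-- The fair coin. -/
noncomputable def coin : Measure Bool := (PMF.uniformOfFintype Bool).toMeasure

instance : IsProbabilityMeasure coin := PMF.toMeasure.isProbabilityMeasure _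

/-- The product measure. -/
noncomputable def Pr : Measure Om := Measure.infinitePi (fun _ : ℕ => coin)

instance : IsProbabilityMeasure Pr := by unfold Pr; infer_instance

/-- Permutation of the coordinates. -/
def pm (π : Equiv.Perm ℕ) (ω : Om) : Om := fun i => ω (π i)

/-- `L_1(Ω)`. -/
abbrev X1 : Type := Lp ℝ 1 Pr

/-- `L_2(Ω)`. -/
abbrev X2 : Type := Lp ℝ 2 Pr

/-- `L_1[0,1]`. -/
abbrev XX : Type := Lp ℝ 1 LpI.μ

/-- EL_MP. Permutations of the coordinates preserve the product measure (uniqueness of the product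
measure on boxes, e.g. `Measure.eq_infinitePi`, or a Mathlib lemma on `infinitePi` and `piCongrLeft`). -/
def S_MP : Prop := ∀ π : Equiv.Perm ℕ, MeasurePreserving (pm π) Pr Pr

/-- EL_ISO. Binary digits. `D t = (i-th digit of t)`, e.g. for `t` in `(0,1]` the digit `i` is
`decide (Odd (⌈2^(i+1) t⌉ - 1))`; `E ω = ∑ ω_i / 2^(i+1)`; `D` is measure preserving
from Lebesgue measure on `(0,1]` to `Pr` (values on cylinders: a cylinder of length `n` is a dyadic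
interval of length `2^-n`), `E (D t) = t`. So composition with `D` and with `E` are inverse to each
other (almost everywhere) isometries. -/
def S_ISO : Prop := ∃ J : XX ≃ₗᵢ[ℝ] X1, J (Lp.const 1 LpI.μ (1 : ℝ)) = Lp.const 1 Pr (1 : ℝ) ∧
  ∀ x : XX, ∫ ω, J x ω ∂Pr = ∫ t, x t ∂LpI.μ

/-- EL_WAL. `q A v = ∑_{S ≠ ∅} |⟨v, χ_S⟩|² |S ∩ A| / |S|`, where `S` runs over the finite subsets of
`ℕ` and `χ_S(ω) = ∏_{i ∈ S} (±1)^{ω_i}` are the Walsh functions. They are orthonormal, and complete: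
if `v ⊥ χ_S` for all `S` then the integral of `v` over every cylinder is `0`, so `v = 0` (π-λ).
The Lipschitz estimate: `∑ w_S |a_S² - b_S²| ≤ ‖a-b‖ ‖a+b‖` for weights `w_S` in `[0,1]`.
`χ_S (pm π ω) = χ_{π S} (ω)`. -/
def S_WAL : Prop := ∃ q : Set ℕ → X2 → ℝ,
  (∀ A v, 0 ≤ q A v) ∧
  (∀ A B, Disjoint A B → ∀ v, q (A ∪ B) v = q A v + q B v) ∧
  (∀ A v w, |q A v - q A w| ≤ ‖v - w‖ * (‖v‖ + ‖w‖)) ∧
  (∀ v : X2, q univ v = ‖v‖ ^ 2 - (∫ ω, v ω ∂Pr) ^ 2) ∧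
  (∀ (π : Equiv.Perm ℕ) (h : MeasurePreserving (pm π) Pr Pr) (A : Set ℕ) (v : X2),
    q A (Lp.compMeasurePreserving (pm π) h v) = q (π ⁻¹' A) v)

/-- EL_MAZ. The Mazur map `M x = sign(x) |x|^{1/2}`. `|M s - M t|² ≤ 2 |s - t|` for real `s`, `t`.
For the last item let `v = M x`, `m = ∫ v` and `c = m |m|`: `|x - c| ≤ |v - m| (|v| + |m|)` pointwise,
then Cauchy-Schwarz, `|m| ≤ ‖v‖` and `‖v - m‖² = ‖v‖² - m²`. -/
def S_MAZ : Prop := ∃ M : X1 → X2,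
  (∀ x, ‖M x‖ ^ 2 = ‖x‖) ∧ (∀ x y, ‖M x - M y‖ ^ 2 ≤ 2 * ‖x - y‖) ∧
  (∀ (π : Equiv.Perm ℕ) (h : MeasurePreserving (pm π) Pr Pr) (x : X1),
    M (Lp.compMeasurePreserving (pm π) h x) = Lp.compMeasurePreserving (pm π) h (M x)) ∧
  (∀ x : X1, ∃ c : ℝ, ‖x - c • Lp.const 1 Pr (1 : ℝ)‖ ^ 2 ≤
    4 * ‖x‖ * (‖M x‖ ^ 2 - (∫ ω, M x ω ∂Pr) ^ 2))

/-- EL_ACT. The isometries of `L_1(Ω)` given by the permutations. -/
def S_ACT : Prop := ∃ T : Equiv.Perm ℕ → (X1 ≃ₗᵢ[ℝ] X1),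
  (∀ (π : Equiv.Perm ℕ) (h : MeasurePreserving (pm π) Pr Pr) (x : X1),
    T π x = Lp.compMeasurePreserving (pm π) h x) ∧
  (∀ π, T π (Lp.const 1 Pr (1 : ℝ)) = Lp.const 1 Pr (1 : ℝ)) ∧
  (∀ π (x : X1), ∫ ω, T π x ω ∂Pr = ∫ ω, x ω ∂Pr)

/-- Bounded Lipschitz functions. -/
def BL {S : Type} [MetricSpace S] (g : S → ℝ) (a L : ℝ) : Prop :=
  (∀ u, |g u| ≤ a) ∧ ∀ u v, |g u - g v| ≤ L * dist u v

/-- EL_ABS. Abstract paradox. Proof: for `0 < t ≤ 1` let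
`ψ' A u = inf_{u'} (ψ A u' + dist u u' / t)`; then `|ψ' - ψ| ≤ H t`, `ψ'` is `1/t`-Lipschitz, and
`ψ' A (act π u) = ψ' (π ⁻¹' A) u`. For a colouring `c : ℕ → Fin k` with infinite fibres `P_j`
call `g` `c`-invariant if `g ∘ act π = g` for all `π` with `c ∘ π = c`. For such `g` vanishing off
`{ψ univ = 1}`, `m A = ν (ψ' A * g)` has one value `c_j` for all infinite `A ⊆ P_j` with infinite
`P_j \ A`; with `d A B = ψ' (A ∪ B) - ψ' A - ψ' B` (`A`, `B` disjoint) one gets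
`c_j = - ν (d A B * g)` (`A`, `B`, `P_j \ (A ∪ B)` infinite), `m P_j = 2 c_j + ν (d A' B' * g)` and
`ν g = ∑ m P_j + ν ((1 - ∑ ψ' P_j) * g)`. So `ν g` is a sum of `O(k)` values `ν (e * g)` where
`|e| ≤ C t`, `e` is `C/t`-Lipschitz and invariant under a finer colouring. If `|g| ≤ a`, `g`
`L`-Lipschitz, then `|e g| ≤ C t a` and `e g` is `C (t L + a/t)`-Lipschitz. Induction on `j = 0,1,2,3`:
`|ν g| ≤ C_j (a + L)`, `C_j (t L + a/t)`, `C_j (t² L + a)`, `C_j (t³ L + t a)` (for all colourings with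
`k` colours, all `c`-invariant `g`, all `t` in `(0,1]`); let `t → 0`. -/
def S_ABS : Prop := ∀ (S : Type) [MetricSpace S] (act : Equiv.Perm ℕ → S → S),
  (∀ π, Isometry (act π)) → (∀ π, Function.Surjective (act π)) →
  ∀ (ψ : Set ℕ → S → ℝ) (H : ℝ), (∀ A u, 0 ≤ ψ A u ∧ ψ A u ≤ 1) →
  (∀ A B, Disjoint A B → ∀ u, ψ (A ∪ B) u = ψ A u + ψ B u) →
  (∀ A u v, |ψ A u - ψ A v| ^ 2 ≤ H * dist u v) →
  (∀ (π : Equiv.Perm ℕ) A u, ψ A (act π u) = ψ (π ⁻¹' A) u) →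
  ∀ (ν : (S → ℝ) → ℝ) (C : ℝ),
  (∀ g h a L, BL g a L → BL h a L → ν (g + h) = ν g + ν h) →
  (∀ g a L, BL g a L → |ν g| ≤ C * (a + L)) →
  (∀ π g a L, BL g a L → ν (g ∘ act π) = ν g) →
  ∀ (g : S → ℝ) (a L : ℝ), BL g a L → (∀ π, g ∘ act π = g) → (∀ u, g u ≠ 0 → ψ univ u = 1) →
    ν g = 0

/-- EL_LOC. Locality in `ℓ_1`-sums. Via `e` one may assume `X = ℓ_1(Option ℕ, Z)`. Let `L = ‖F‖`,
`N = range some`, `q_A x = ‖x restricted to A‖`; then `|F x| ≤ L q_N x`. For `A ⊆ N` put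
`F_A x = F x * q_A x / q_N x` (`0` if `q_N x = 0`), `F_N = F`. Let `M ≥ 1`, choose pairwise disjoint
infinite `C_(j,i) ⊆ N` (`j < M`, `i < 2`), permutations `π_(j,i)` of `ℕ` carrying `A_i` (evens, odds)
to `C_(j,i)`, with isometries `g_(j,i)` such that `F_(A_i) ∘ g_(j,i) = (F ∘ g_(j,i)) q_(C_(j,i)) / q_N`.
Then `M (P F z) = (P G z)`, `G = ∑ F_(A_i) ∘ g_(j,i)`, as `g_(j,i)` fixes `z = single none _`; and
`‖G‖ ≤ 4 L` for every `M` (a subconvex combination of `L`-Lipschitz functions bounded by `L q_N`).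
So `M |P F z| ≤ 4 L ‖P‖ ‖z‖` for all `M`. See `Pool/Agent/X171/ED/Neg.lean` (`u_lip`, `reindex`,
`q_add`, `ratio_le`) for similar lemmas. -/
def S_LOC : Prop := ∀ (Z X : Type) [NormedAddCommGroup Z] [NormedSpace ℝ Z] [NormedAddCommGroup X]
  [NormedSpace ℝ X] (e : X ≃ₗᵢ[ℝ] lp (fun _ : Option ℕ => Z) 1)
  (P : Lip0 X →L[ℝ] StrongDual ℝ X),
  (∀ (g : X ≃ₗᵢ[ℝ] X) (f : Lip0 X) (x : X), P (pull g f) x = P f (g x)) →
  ∀ F : Lip0 X, (∀ z : Z, F (e.symm (lp.single 1 none z)) = 0) →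
    ∀ z : Z, P F (e.symm (lp.single 1 none z)) = 0

/-- EL_HALF (prove `S_LOC → S_HALF`). `1 = 1_(1/2,1] + 1_(0,1/2]`. For the first summand use `S_LOC`
with `e = LpI.equiv` (the coordinate `0` is the band `(1/2,1]`) reindexed by `Option ℕ ≃ ℕ`,
`none ↦ 0`; for the second use the isometry `x(t) ↦ x(1-t)`. -/
def S_HALF : Prop := ∀ P : Lip0 XX →L[ℝ] StrongDual ℝ XX,
  (∀ (g : XX ≃ₗᵢ[ℝ] XX) (f : Lip0 XX) (x : XX), P (pull g f) x = P f (g x)) →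
  ∀ F : Lip0 XX, (∀ x : XX, (∀ᵐ t ∂LpI.μ, t ≤ 1 / 2 → x t = 0) → F x = 0) →
    (∀ x : XX, (∀ᵐ t ∂LpI.μ, 1 / 2 < t → x t = 0) → F x = 0) →
    P F (Lp.const 1 LpI.μ (1 : ℝ)) = 0

/-- EL_DIST. -/
def S_DIST : Prop := ∀ x : XX, ((∀ᵐ t ∂LpI.μ, t ≤ 1 / 2 → x t = 0) ∨
  (∀ᵐ t ∂LpI.μ, 1 / 2 < t → x t = 0)) → ∀ c : ℝ, ‖x‖ ≤ ‖x - c • Lp.const 1 LpI.μ (1 : ℝ)‖

end Pool.Agent.X171.EL
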