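import Pool.Agent.X171.EL.Fin
import Pool.Agent.X330.EL.MP
import Pool.Agent.X284.EL.ISO
import Pool.Agent.X14.EL.Wal
import Pool.Agent.X97.EL.MAZ
import Pool.Agent.X327.EL.ACT
import Pool.Agent.X190.EL.ABS
import Pool.Agent.X168.EL.Loc
import Pool.Agent.X25.EL.Dist
import Pool.Agent.X176.EL.HALF

/-!
# `L_1[0,1]` does not have the equivariant dual lifting property
-/

namespace Pool.Agent.X171.EL

open Pool.Agent.X171.ED

/-- The space `L_1(0,1]` does not have the equivariant dual lifting property. -/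
theorem not_edl_L1 : ¬ EDL XX :=
  fin_XX Pool.Agent.X330.EL.t_MP Pool.Agent.X284.EL.t_ISO Pool.Agent.X14.EL.t_WAL
    Pool.Agent.X97.EL.t_MAZ Pool.Agent.X327.EL.t_ACT Pool.Agent.X190.EL.t_ABS
    (Pool.Agent.X176.EL.t_HALF Pool.Agent.X168.EL.t_LOC) Pool.Agent.X25.EL.t_DIST

end Pool.Agent.X171.EL
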