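import Pool.Agent.X171.EL.Sph

open MeasureTheory Set
open scoped ENNReal

namespace Pool.Agent.X171.EL

open Pool.Agent.X171.ED Pool.Agent.X171.LS

/-- The constant function `1`. -/
noncomputable def one : XX := Lp.const 1 LpI.μ (1 : ℝ)

/-- The integral. -/
noncomputable def phi : StrongDual ℝ XX := L1.integralCLM

lemma phi_eq (x : XX) : phi x = L1.integral x := (L1.integral_eq x).symm

lemma phi_apply (x : XX) : phi x = ∫ t, x t ∂LpI.μ := by
  rw [phi_eq]
  exact L1.integral_eq_integral x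

lemma abs_phi_le (x : XX) : |phi x| ≤ ‖x‖ := by
  rw [phi_eq]
  exact L1.norm_integral_le x

instance : IsProbabilityMeasure LpI.μ := ⟨by simp⟩

lemma phi_one : phi one = 1 := by
  rw [phi_apply]
  have h : (one : ℝ → ℝ) =ᵐ[LpI.μ] fun _ => 1 := Lp.coeFn_const _ _ _
  rw [integral_congr_ae h, integral_const]
  simp

instance : Nontrivial XX := ⟨⟨one, 0, fun h => by
  have := phi_one
  rw [h, map_zero] at this
  norm_num at this⟩⟩

/-- The line of the constants. -/
def line : Set XX := Set.range fun c : ℝ => c • one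

/-- The distance to the constants. -/
noncomputable def D (x : XX) : ℝ := Metric.infDist x line

/-- The cutoff function. -/
noncomputable def th (s : ℝ) : ℝ := max 0 (min 1 (2 * s - 1))

lemma th_abs (s : ℝ) : |th s| ≤ 1 := by
  unfold th
  rw [abs_of_nonneg (le_max_left _ _)]
  exact max_le (by norm_num) (min_le_left _ _)

lemma th_lip (s t : ℝ) : |th s - th t| ≤ 2 * |s - t| := by
  unfold th
  refine (abs_max_sub_max_le_max _ _ _ _).trans ?_
  rw [sub_self, abs_zero]
  refine max_le (by positivity) ?_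
  refine (abs_min_sub_min_le_max _ _ _ _).trans ?_
  rw [sub_self, abs_zero]
  refine max_le (by positivity) ?_
  have : 2 * s - 1 - (2 * t - 1) = 2 * (s - t) := by ring
  rw [this, abs_mul, abs_two]

lemma D_lip (x y : XX) : |D x - D y| ≤ dist x y := by
  have h := (Metric.lipschitz_infDist_pt line).dist_le_mul x y
  rw [NNReal.coe_one, one_mul, Real.dist_eq] at h
  exact h

/-- The test function. -/
noncomputable def g1 (u : Sp XX) : ℝ := phi u.1 * th (D u.1)

lemma g1_BL : BL g1 1 3 := by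
  constructor
  · intro u
    unfold g1
    rw [abs_mul]
    have h1 := abs_phi_le u.1
    rw [u.2] at h1
    calc |phi u.1| * |th (D u.1)| ≤ 1 * 1 := mul_le_mul h1 (th_abs _) (abs_nonneg _) zero_le_one
      _ = 1 := one_mul 1
  · intro u v
    have h1 := abs_phi_le u.1
    rw [u.2] at h1
    have e : g1 u - g1 v = phi u.1 * (th (D u.1) - th (D v.1)) + (phi (u.1 - v.1)) * th (D v.1) := by
      unfold g1
      rw [map_sub]
      ring
    have h2 : |phi (u.1 - v.1)| ≤ dist u v := by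
      rw [Subtype.dist_eq, dist_eq_norm]
      exact abs_phi_le _
    have h3 : |th (D u.1) - th (D v.1)| ≤ 2 * dist u v :=
      (th_lip _ _).trans (mul_le_mul_of_nonneg_left (D_lip _ _) (by norm_num))
    rw [e]
    refine (abs_add_le _ _).trans ?_
    rw [abs_mul, abs_mul]
    have h4 : |phi u.1| * |th (D u.1) - th (D v.1)| ≤ 1 * (2 * dist u v) :=
      mul_le_mul h1 h3 (abs_nonneg _) zero_le_one
    have h5 : |phi (u.1 - v.1)| * |th (D v.1)| ≤ dist u v * 1 :=
      mul_le_mul h2 (th_abs _) (abs_nonneg _) dist_nonneg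
    linarith

lemma D_act (G : XX ≃ₗᵢ[ℝ] XX) (hG : G one = one) (x : XX) : D (G x) = D x := by
  unfold D
  have h : G '' line = line := by
    unfold line
    rw [← Set.range_comp]
    congr 1
    funext c
    change G (c • one) = c • one
    rw [map_smul, hG]
  conv_lhs => rw [← h]
  exact Metric.infDist_image G.isometry

lemma one_le_D (hD : S_DIST) (x : XX) (hx : (∀ᵐ t ∂LpI.μ, t ≤ 1 / 2 → x t = 0) ∨
    (∀ᵐ t ∂LpI.μ, 1 / 2 < t → x t = 0)) (hn : ‖x‖ = 1) : 1 ≤ D x := by
  unfold D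
  have hne : line.Nonempty := ⟨_, Set.mem_range_self (0 : ℝ)⟩
  rw [Metric.le_infDist hne]
  rintro _ ⟨c, rfl⟩
  rw [dist_eq_norm, ← hn]
  exact hD x hx c

/-- The weights. -/
noncomputable def wt (q : Set ℕ → X2 → ℝ) (v : X2) (A : Set ℕ) : ℝ :=
  q A v / max (q univ v) (1 / 16)

lemma wt_lip (q : Set ℕ → X2 → ℝ) (h0 : ∀ A v, 0 ≤ q A v)
    (hle : ∀ A v, q A v ≤ q univ v)
    (hlip : ∀ A v w, |q A v - q A w| ≤ ‖v - w‖ * (‖v‖ + ‖w‖)) (A : Set ℕ) (v w : X2)
    (hv : ‖v‖ = 1) (hw : ‖w‖ = 1) : |wt q v A - wt q w A| ≤ 64 * ‖v - w‖ := by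
  unfold wt
  set m := max (q univ v) (1 / 16) with hm
  set m' := max (q univ w) (1 / 16) with hm'
  have hm0 : 1 / 16 ≤ m := le_max_right _ _
  have hm0' : 1 / 16 ≤ m' := le_max_right _ _
  have e1 : q A v / m - q A w / m' = (q A v - q A w) / m + (q A w / m') * ((m' - m) / m) := by
    have h1 : m ≠ 0 := by linarith
    have h2 : m' ≠ 0 := by linarith
    field_simp
    ring
  have h1 : |q A v - q A w| ≤ 2 * ‖v - w‖ := by
    have := hlip A v w
    rw [hv, hw] at this
    linarith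
  have h2 : |m' - m| ≤ 2 * ‖v - w‖ := by
    have h3 : |m' - m| ≤ |q univ w - q univ v| := by
      rw [hm, hm']
      refine (abs_max_sub_max_le_max _ _ _ _).trans ?_
      rw [sub_self, abs_zero]
      exact max_le le_rfl (abs_nonneg _)
    have := hlip univ w v
    rw [hv, hw, norm_sub_rev] at this
    linarith
  have h4 : |q A w / m'| ≤ 1 := by
    rw [abs_div, abs_of_nonneg (h0 A w), abs_of_pos (by linarith : 0 < m')]
    exact (div_le_one (by linarith)).mpr ((hle A w).trans (le_max_left _ _))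
  have h5 : ∀ s : ℝ, |s / m| ≤ 16 * |s| := by
    intro s
    rw [abs_div, abs_of_pos (by linarith : 0 < m), div_le_iff₀ (by linarith)]
    nlinarith [abs_nonneg s]
  rw [e1]
  refine (abs_add_le _ _).trans ?_
  rw [abs_mul]
  have h6 := h5 (q A v - q A w)
  have h7 := h5 (m' - m)
  have h8 : |q A w / m'| * |(m' - m) / m| ≤ 1 * (16 * |m' - m|) :=
    mul_le_mul h4 h7 (abs_nonneg _) zero_le_one
  linarith

/-- The space `L_1[0,1]`. -/
theorem fin_XX (hMP : S_MP) (hISO : S_ISO) (hWAL : S_WAL) (hMAZ : S_MAZ) (hACT : S_ACT)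
    (hABS : S_ABS) (hHALF : S_HALF) (hDIST : S_DIST) : ¬ EDL XX := by
  rintro ⟨P, hP1, hP⟩
  obtain ⟨J, hJ1, hJint⟩ := hISO
  obtain ⟨q, q0, qadd, qlip, quniv, qcov⟩ := hWAL
  obtain ⟨M, Mn, Mlip, Mcov, Mdist⟩ := hMAZ
  obtain ⟨T, T1, T2, T3⟩ := hACT
  have hle : ∀ A v, q A v ≤ q univ v := by
    intro A v
    have h := qadd A Aᶜ disjoint_compl_right v
    rw [union_compl_self] at h
    linarith [q0 Aᶜ v]
  set G : Equiv.Perm ℕ → (XX ≃ₗᵢ[ℝ] XX) := fun π => (J.trans (T π)).trans J.symm with hG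
  have hGJ : ∀ π x, J (G π x) = T π (J x) := by
    intro π x
    change J (J.symm (T π (J x))) = T π (J x)
    rw [J.apply_symm_apply]
  have hG1 : ∀ π, G π one = one := by
    intro π
    apply J.injective
    rw [hGJ]
    change T π (J (Lp.const 1 LpI.μ (1 : ℝ))) = J (Lp.const 1 LpI.μ (1 : ℝ))
    rw [hJ1, T2]
  have hGphi : ∀ π x, phi (G π x) = phi x := by
    intro π x
    rw [phi_apply, phi_apply, ← hJint, ← hJint, hGJ, T3]
  have hMn : ∀ u : Sp XX, ‖M (J u.1)‖ = 1 := by
    intro u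
    have h := Mn (J u.1)
    rw [J.norm_map, u.2] at h
    exact (pow_eq_one_iff_of_nonneg (norm_nonneg _) two_ne_zero).mp h
  have key := hABS (Sp XX) (fun π => actS (G π)) (fun π => actS_isometry _)
    (fun π => actS_surj _) (fun A u => wt q (M (J u.1)) A) 8192
    (fun A u => by
      have hm : 0 < max (q univ (M (J u.1))) (1 / 16) :=
        lt_of_lt_of_le (by norm_num) (le_max_right _ _)
      refine ⟨div_nonneg (q0 _ _) hm.le, (div_le_one hm).mpr ((hle _ _).trans (le_max_left _ _))⟩)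
    (fun A B hAB u => by
      change q (A ∪ B) _ / _ = q A _ / _ + q B _ / _
      rw [qadd A B hAB, add_div])
    (fun A u v => by
      have h1 := wt_lip q q0 hle qlip A (M (J u.1)) (M (J v.1)) (hMn u) (hMn v)
      have h2 := Mlip (J u.1) (J v.1)
      rw [← map_sub, J.norm_map] at h2
      have h3 : dist u v = ‖u.1 - v.1‖ := by rw [Subtype.dist_eq, dist_eq_norm]
      rw [h3]
      have h4 : |wt q (M (J u.1)) A - wt q (M (J v.1)) A| ^ 2 ≤ (64 * ‖M (J u.1) - M (J v.1)‖) ^ 2 :=
        pow_le_pow_left₀ (abs_nonneg _) h1 2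
      nlinarith)
    (fun π A u => by
      change wt q (M (J (G π u.1))) A = wt q (M (J u.1)) (π ⁻¹' A)
      unfold wt
      rw [hGJ, T1 π (hMP π), Mcov π (hMP π), qcov, qcov, preimage_univ])
    (nu P one) (2 * ‖P‖ * ‖one‖) (nu_add P one) (nu_bd P one)
    (fun π g a L hg => nu_inv P hP one (G π) (hG1 π) g a L hg)
    g1 1 3 g1_BL
    (fun π => by
      funext u
      change phi (G π u.1) * th (D (G π u.1)) = phi u.1 * th (D u.1)
      rw [hGphi, D_act (G π) (hG1 π)])
    (fun u hu => by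
      have h1 : 1 / 2 < D u.1 := by
        by_contra hcon
        push Not at hcon
        apply hu
        unfold g1 th
        have : min 1 (2 * D u.1 - 1) ≤ 0 := (min_le_right _ _).trans (by linarith)
        rw [max_eq_left this, mul_zero]
      obtain ⟨c, hc⟩ := Mdist (J u.1)
      have h2 : J u.1 - c • Lp.const 1 Pr (1 : ℝ) = J (u.1 - c • one) := by
        rw [map_sub, map_smul]
        change _ = _ - c • J (Lp.const 1 LpI.μ (1 : ℝ))
        rw [hJ1]
      rw [h2, J.norm_map, J.norm_map, u.2, ← quniv] at hc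
      have h3 : D u.1 ≤ ‖u.1 - c • one‖ := by
        rw [← dist_eq_norm]
        exact Metric.infDist_le_dist_of_mem ⟨c, rfl⟩
      have h4 : 1 / 16 ≤ q univ (M (J u.1)) := by nlinarith
      change q univ (M (J u.1)) / max (q univ (M (J u.1))) (1 / 16) = 1
      rw [max_eq_left h4]
      exact div_self (by linarith))
  -- the difference
  have hx : ∀ x : XX, ((∀ᵐ t ∂LpI.μ, t ≤ 1 / 2 → x t = 0) ∨
      (∀ᵐ t ∂LpI.μ, 1 / 2 < t → x t = 0)) → (toLip phi - Th g1 ⟨1, 3, g1_BL⟩ : Lip0 XX) x = 0 := by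
    intro x hx
    rw [Lip.sub_apply, Th_apply]
    change phi x - ext g1 x = 0
    by_cases h0 : x = 0
    · rw [h0, ext_zero, map_zero, sub_zero]
    · rw [ext_ne _ h0]
      have h1 : ∀ (s : ℝ) , ((∀ᵐ t ∂LpI.μ, t ≤ 1 / 2 → (s • x : XX) t = 0) ∨
          (∀ᵐ t ∂LpI.μ, 1 / 2 < t → (s • x : XX) t = 0)) := by
        intro s
        rcases hx with hx | hx
        · left
          filter_upwards [hx, Lp.coeFn_smul s x] with t e1 e2 e3
          rw [e2, Pi.smul_apply, e1 e3, smul_zero]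
        · right
          filter_upwards [hx, Lp.coeFn_smul s x] with t e1 e2 e3
          rw [e2, Pi.smul_apply, e1 e3, smul_zero]
      have h2 : 1 ≤ D (nz x h0).1 := one_le_D hDIST _ (h1 _) (nz x h0).2
      have h3 : th (D (nz x h0).1) = 1 := by
        unfold th
        rw [min_eq_left (by linarith), max_eq_right zero_le_one]
      have h4 : ‖x‖ ≠ 0 := norm_ne_zero_iff.mpr h0
      unfold g1
      rw [h3, mul_one]
      change phi x - ‖x‖ * phi (‖x‖⁻¹ • x) = 0
      rw [map_smul, smul_eq_mul, ← mul_assoc, mul_inv_cancel₀ h4, one_mul, sub_self]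
  have h5 := hHALF P hP (toLip phi - Th g1 ⟨1, 3, g1_BL⟩) (fun x h => hx x (Or.inl h))
    (fun x h => hx x (Or.inr h))
  rw [nu_eq P one g1 ⟨1, 3, g1_BL⟩] at key
  rw [map_sub, hP1] at h5
  change phi one - P (Th g1 ⟨1, 3, g1_BL⟩) one = 0 at h5
  rw [phi_one, key] at h5
  norm_num at h5

end Pool.Agent.X171.EL
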