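import Pool.Agent.X171.EL.Stm

open MeasureTheory Set
open scoped ENNReal

namespace Pool.Agent.X171.EL

open Pool.Agent.X171.ED Pool.Agent.X171.LS

section Sphere

variable {X : Type} [NormedAddCommGroup X] [NormedSpace ℝ X]

variable (X) in
/-- The unit sphere. -/
abbrev Sp : Type := {u : X // ‖u‖ = 1}

/-- The normalisation. -/
noncomputable def nz (x : X) (hx : x ≠ 0) : Sp X :=
  ⟨‖x‖⁻¹ • x, by rw [norm_smul, norm_inv, norm_norm, inv_mul_cancel₀ (norm_ne_zero_iff.mpr hx)]⟩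

open Classical in
/-- The homogeneous extension. -/
noncomputable def ext (g : Sp X → ℝ) (x : X) : ℝ := if hx : x = 0 then 0 else ‖x‖ * g (nz x hx)

lemma ext_zero (g : Sp X → ℝ) : ext g 0 = 0 := by
  unfold ext
  rw [dif_pos rfl]

lemma ext_ne (g : Sp X → ℝ) {x : X} (hx : x ≠ 0) : ext g x = ‖x‖ * g (nz x hx) := by
  unfold ext
  rw [dif_neg hx]

lemma nz_dist {x y : X} (hx : x ≠ 0) (hy : y ≠ 0) : ‖y‖ * dist (nz x hx) (nz y hy) ≤ 2 * ‖x - y‖ := by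
  have hx' : ‖x‖ ≠ 0 := norm_ne_zero_iff.mpr hx
  have hy' : ‖y‖ ≠ 0 := norm_ne_zero_iff.mpr hy
  have h1 : dist (nz x hx) (nz y hy) = ‖‖x‖⁻¹ • x - ‖y‖⁻¹ • y‖ := by
    rw [Subtype.dist_eq, dist_eq_norm]
    rfl
  have h2 : ‖y‖ * ‖‖x‖⁻¹ • x - ‖y‖⁻¹ • y‖ = ‖‖y‖ • (‖x‖⁻¹ • x - ‖y‖⁻¹ • y)‖ := by
    rw [norm_smul, norm_norm]
  have h3 : ‖y‖ • (‖x‖⁻¹ • x - ‖y‖⁻¹ • y) = (x - y) + ((‖y‖ - ‖x‖) * ‖x‖⁻¹) • x := by
    have e1 : (‖y‖ * ‖y‖⁻¹) = 1 := mul_inv_cancel₀ hy'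
    have e2 : (‖x‖ * ‖x‖⁻¹) = 1 := mul_inv_cancel₀ hx'
    rw [smul_sub, smul_smul, smul_smul, e1, sub_mul, e2, sub_smul, one_smul, one_smul]
    abel
  rw [h1, h2, h3]
  refine (norm_add_le _ _).trans ?_
  have h4 : ‖((‖y‖ - ‖x‖) * ‖x‖⁻¹) • x‖ = |‖y‖ - ‖x‖| := by
    rw [norm_smul, norm_mul, norm_inv, norm_norm, mul_assoc, inv_mul_cancel₀ hx', mul_one,
      Real.norm_eq_abs]
  rw [h4]
  have h5 : |‖y‖ - ‖x‖| ≤ ‖x - y‖ := by
    rw [abs_sub_comm]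
    exact abs_norm_sub_norm_le x y
  linarith

lemma BL.nonneg [Nontrivial X] {g : Sp X → ℝ} {a L : ℝ} (h : BL g a L) : 0 ≤ a ∧ 0 ≤ L := by
  obtain ⟨x, hx⟩ := exists_ne (0 : X)
  set u := nz x hx
  have hu : ‖u.1‖ = 1 := u.2
  set v : Sp X := ⟨-u.1, by rw [norm_neg]; exact hu⟩
  refine ⟨(abs_nonneg _).trans (h.1 u), ?_⟩
  have h1 := h.2 u v
  have h2 : 0 < dist u v := by
    rw [Subtype.dist_eq, dist_eq_norm]
    change 0 < ‖u.1 - -u.1‖
    rw [sub_neg_eq_add, ← two_smul ℝ, norm_smul, hu]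
    norm_num
  have h3 := (abs_nonneg _).trans h1
  exact nonneg_of_mul_nonneg_left h3 h2

lemma ext_lip [Nontrivial X] {g : Sp X → ℝ} {a L : ℝ} (h : BL g a L) (x y : X) :
    ‖ext g x - ext g y‖ ≤ (a + 2 * L) * dist x y := by
  obtain ⟨ha, hL⟩ := h.nonneg
  have hz : ∀ z : X, |ext g z| ≤ (a + 2 * L) * ‖z‖ := by
    intro z
    by_cases hz : z = 0
    · rw [hz, ext_zero, abs_zero, norm_zero, mul_zero]
    · rw [ext_ne g hz, abs_mul, abs_norm, mul_comm]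
      apply mul_le_mul_of_nonneg_right _ (norm_nonneg _)
      have := h.1 (nz z hz)
      linarith
  rw [Real.norm_eq_abs, dist_eq_norm]
  by_cases hx : x = 0
  · rw [hx, ext_zero, zero_sub, abs_neg, zero_sub, norm_neg]
    exact hz y
  · by_cases hy : y = 0
    · rw [hy, ext_zero, sub_zero, sub_zero]
      exact hz x
    · rw [ext_ne g hx, ext_ne g hy]
      have e1 : ‖x‖ * g (nz x hx) - ‖y‖ * g (nz y hy) =
          (‖x‖ - ‖y‖) * g (nz x hx) + ‖y‖ * (g (nz x hx) - g (nz y hy)) := by ring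
      rw [e1]
      refine (abs_add_le _ _).trans ?_
      rw [abs_mul, abs_mul, abs_norm]
      have e2 : |‖x‖ - ‖y‖| * |g (nz x hx)| ≤ ‖x - y‖ * a :=
        mul_le_mul (abs_norm_sub_norm_le x y) (h.1 _) (abs_nonneg _) (norm_nonneg _)
      have e3 : ‖y‖ * |g (nz x hx) - g (nz y hy)| ≤ L * (2 * ‖x - y‖) := by
        calc ‖y‖ * |g (nz x hx) - g (nz y hy)| ≤ ‖y‖ * (L * dist (nz x hx) (nz y hy)) :=
              mul_le_mul_of_nonneg_left (h.2 _ _) (norm_nonneg _)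
          _ = L * (‖y‖ * dist (nz x hx) (nz y hy)) := by ring
          _ ≤ L * (2 * ‖x - y‖) := mul_le_mul_of_nonneg_left (nz_dist hx hy) hL
      nlinarith

/-- The extension as a Lipschitz function. -/
noncomputable def Th [Nontrivial X] (g : Sp X → ℝ) (h : ∃ a L, BL g a L) : Lip0 X :=
  Lip.mk (ext g) (ext_zero g) (h.choose + 2 * h.choose_spec.choose)
    (fun x y => ext_lip h.choose_spec.choose_spec x y)

lemma Th_apply [Nontrivial X] (g : Sp X → ℝ) (h : ∃ a L, BL g a L) (x : X) :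
    Th g h x = ext g x := rfl

lemma Th_norm [Nontrivial X] {g : Sp X → ℝ} {a L : ℝ} (h : BL g a L) :
    ‖Th g ⟨a, L, h⟩‖ ≤ a + 2 * L := by
  obtain ⟨ha, hL⟩ := h.nonneg
  exact Lip.norm_le _ (by linarith) (fun x y => ext_lip h x y)

/-- The action on the sphere. -/
def actS (G : X ≃ₗᵢ[ℝ] X) (u : Sp X) : Sp X := ⟨G u.1, by rw [G.norm_map]; exact u.2⟩

lemma actS_isometry (G : X ≃ₗᵢ[ℝ] X) : Isometry (actS G) := by
  refine Isometry.of_dist_eq (fun u v => ?_)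
  rw [Subtype.dist_eq, Subtype.dist_eq]
  exact G.dist_map u.1 v.1

lemma actS_surj (G : X ≃ₗᵢ[ℝ] X) : Function.Surjective (actS G) := by
  intro u
  refine ⟨⟨G.symm u.1, by rw [G.symm.norm_map]; exact u.2⟩, ?_⟩
  apply Subtype.ext
  exact G.apply_symm_apply u.1

lemma ext_act (G : X ≃ₗᵢ[ℝ] X) (g : Sp X → ℝ) (x : X) : ext (g ∘ actS G) x = ext g (G x) := by
  by_cases hx : x = 0
  · rw [hx, map_zero, ext_zero, ext_zero]
  · have hx' : G x ≠ 0 := by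
      intro h
      apply hx
      have := G.norm_map x
      rw [h, norm_zero] at this
      exact norm_eq_zero.mp this.symm
    rw [ext_ne _ hx, ext_ne _ hx', G.norm_map]
    have e : actS G (nz x hx) = nz (G x) hx' := by
      apply Subtype.ext
      change G (‖x‖⁻¹ • x) = ‖G x‖⁻¹ • G x
      rw [map_smul, G.norm_map]
    rw [Function.comp_apply, e]

lemma BL.add {g h : Sp X → ℝ} {a L a' L' : ℝ} (hg : BL g a L) (hh : BL h a' L') :
    BL (g + h) (a + a') (L + L') := by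
  constructor
  · intro u
    exact (abs_add_le _ _).trans (add_le_add (hg.1 u) (hh.1 u))
  · intro u v
    have e : (g + h) u - (g + h) v = (g u - g v) + (h u - h v) := by
      rw [Pi.add_apply, Pi.add_apply]; ring
    rw [e, add_mul]
    exact (abs_add_le _ _).trans (add_le_add (hg.2 u v) (hh.2 u v))

lemma ext_add (g h : Sp X → ℝ) (x : X) : ext (g + h) x = ext g x + ext h x := by
  by_cases hx : x = 0
  · rw [hx, ext_zero, ext_zero, ext_zero, add_zero]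
  · rw [ext_ne _ hx, ext_ne _ hx, ext_ne _ hx, Pi.add_apply]
    ring

open Classical in
/-- The functional. -/
noncomputable def nu [Nontrivial X] (P : Lip0 X →L[ℝ] StrongDual ℝ X) (o : X) (g : Sp X → ℝ) : ℝ :=
  if h : ∃ a L, BL g a L then P (Th g h) o else 0

lemma nu_eq [Nontrivial X] (P : Lip0 X →L[ℝ] StrongDual ℝ X) (o : X) (g : Sp X → ℝ)
    (h : ∃ a L, BL g a L) : nu P o g = P (Th g h) o := by
  unfold nu
  rw [dif_pos h]

lemma nu_add [Nontrivial X] (P : Lip0 X →L[ℝ] StrongDual ℝ X) (o : X) (g h : Sp X → ℝ) (a L : ℝ)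
    (hg : BL g a L) (hh : BL h a L) : nu P o (g + h) = nu P o g + nu P o h := by
  rw [nu_eq P o _ ⟨_, _, hg.add hh⟩, nu_eq P o g ⟨_, _, hg⟩, nu_eq P o h ⟨_, _, hh⟩]
  have e : Th (g + h) ⟨_, _, hg.add hh⟩ = Th g ⟨_, _, hg⟩ + Th h ⟨_, _, hh⟩ := by
    apply Lip.ext
    intro x
    rw [Lip.add_apply, Th_apply, Th_apply, Th_apply, ext_add]
  rw [e, map_add]
  rfl

lemma nu_bd [Nontrivial X] (P : Lip0 X →L[ℝ] StrongDual ℝ X) (o : X) (g : Sp X → ℝ) (a L : ℝ)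
    (hg : BL g a L) : |nu P o g| ≤ (2 * ‖P‖ * ‖o‖) * (a + L) := by
  obtain ⟨ha, hL⟩ := hg.nonneg
  rw [nu_eq P o g ⟨_, _, hg⟩]
  have h1 := (P (Th g ⟨_, _, hg⟩)).le_opNorm o
  have h2 := P.le_opNorm (Th g ⟨_, _, hg⟩)
  have h3 := Th_norm hg
  rw [Real.norm_eq_abs] at h1
  calc |P (Th g ⟨_, _, hg⟩) o| ≤ ‖P (Th g ⟨_, _, hg⟩)‖ * ‖o‖ := h1
    _ ≤ (‖P‖ * ‖Th g ⟨_, _, hg⟩‖) * ‖o‖ := mul_le_mul_of_nonneg_right h2 (norm_nonneg _)
    _ ≤ (‖P‖ * (2 * (a + L))) * ‖o‖ := by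
        have h4 : ‖Th g ⟨_, _, hg⟩‖ ≤ 2 * (a + L) := by linarith
        have hp : 0 ≤ ‖P‖ := norm_nonneg P
        exact mul_le_mul_of_nonneg_right (mul_le_mul_of_nonneg_left h4 hp) (norm_nonneg _)
    _ = (2 * ‖P‖ * ‖o‖) * (a + L) := by ring

lemma nu_inv [Nontrivial X] (P : Lip0 X →L[ℝ] StrongDual ℝ X)
    (hP : ∀ (g : X ≃ₗᵢ[ℝ] X) (f : Lip0 X) (x : X), P (pull g f) x = P f (g x)) (o : X)
    (G : X ≃ₗᵢ[ℝ] X) (hG : G o = o) (g : Sp X → ℝ) (a L : ℝ) (hg : BL g a L) :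
    nu P o (g ∘ actS G) = nu P o g := by
  have hg' : BL (g ∘ actS G) a L := by
    refine ⟨fun u => hg.1 _, fun u v => ?_⟩
    have := hg.2 (actS G u) (actS G v)
    rwa [(actS_isometry G).dist_eq] at this
  rw [nu_eq P o _ ⟨_, _, hg'⟩, nu_eq P o g ⟨_, _, hg⟩]
  have e : Th (g ∘ actS G) ⟨_, _, hg'⟩ = pull G (Th g ⟨_, _, hg⟩) := by
    apply Lip.ext
    intro x
    rw [pull_apply, Th_apply, Th_apply, ext_act]
  rw [e, hP, hG]

end Sphere

end Pool.Agent.X171.EL
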